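import Pool.Agent.Lib.MP_879098_ag.QMain

open Pool.Agent.Lib.MP_879098_ag

theorem Pool.Agent.Variants.MP_879098_ag.CohomologicalSense.result :
    ∃ (n : ℕ) (X : Set (PP n)), IsProjVariety X ∧ IsSmooth X ∧ CohConn X ∧
      ∃ x ∈ X, ∃ y ∈ X, 0 < kobayashi X x y :=
  Q2.main
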